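import Pool.Agent.H68.AltFlat

/-!
# The variety of alternative algebras is decomposable (all universes)

Universe polymorphic copy of `Pool.Agent.H68.AltMain` (helper68).
-/

set_option autoImplicit false
set_option linter.unusedSectionVars false

universe u

open Pool.Agent.H68

namespace Pool.Agent.H16.AltU

open MonoidAlgebra

section quot

variable (F : Type u) [Field F] [CharZero F]

lemma isAlt_of {A : Type u} [NonUnitalNonAssocRing A] [Module F A]
    (h : ∀ x y : A, (x * x) * y = x * (x * y) ∧ (y * x) * x = y * (x * x)) : IsAlt A := by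
  refine ⟨h, ?_⟩
  intro a ha
  have h2 : (2 : F) • a = 0 := by rw [two_smul]; exact ha
  have h3 : (2 : F) ≠ 0 := two_ne_zero
  exact (smul_eq_zero_iff_right h3).1 h2

/-- polynomials whose values in every alternative algebra lie in `U` -/
def UU (r : FN F) : Prop :=
  ∀ (A : Type u) [NonUnitalNonAssocRing A] [Module F A] [IsScalarTower F A A]
    [SMulCommClass F A A], IsAlt A → ∀ φ : ℕ → A,
      IsAlt.InU (FreeNonUnitalNonAssocAlgebra.lift F φ r)

/-- representation of `f` as a sum of products of elements of `U` -/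
def Rep (f : FN F) (l : List (FN F × FN F)) : Prop :=
  (∀ p ∈ l, UU F p.1 ∧ UU F p.2) ∧
    ∀ (A : Type u) [NonUnitalNonAssocRing A] [Module F A] [IsScalarTower F A A]
      [SMulCommClass F A A], IsAlt A → ∀ φ : ℕ → A,
        FreeNonUnitalNonAssocAlgebra.lift F φ f =
          (l.map (fun p => FreeNonUnitalNonAssocAlgebra.lift F φ p.1 *
            FreeNonUnitalNonAssocAlgebra.lift F φ p.2)).sum

/-- The ideal of the free nonassociative algebra. -/
def JJ : Submodule F (FN F) where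
  carrier := {f | ∃ l, Rep F f l}
  zero_mem' := by
    refine ⟨[], ?_, ?_⟩
    · intro p hp; simp at hp
    · intro A _ _ _ _ _ φ; simp
  add_mem' := by
    rintro f g ⟨l, hl1, hl2⟩ ⟨m, hm1, hm2⟩
    refine ⟨l ++ m, ?_, ?_⟩
    · intro p hp
      rcases List.mem_append.1 hp with h | h
      · exact hl1 p h
      · exact hm1 p h
    · intro A _ _ _ _ hA φ
      rw [map_add, hl2 A hA φ, hm2 A hA φ, List.map_append, List.sum_append]
  smul_mem' := by
    rintro c f ⟨l, hl1, hl2⟩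
    refine ⟨l.map (fun p => (c • p.1, p.2)), ?_, ?_⟩
    · intro p hp
      rw [List.mem_map] at hp
      obtain ⟨q, hq, rfl⟩ := hp
      refine ⟨?_, (hl1 q hq).2⟩
      intro A _ _ _ _ hA φ
      simp only [map_smul]
      exact IsAlt.InU.smul ((hl1 q hq).1 A hA φ) c
    · intro A _ _ _ _ hA φ
      rw [map_smul, hl2 A hA φ, List.map_map]
      clear hl1 hl2
      induction l with
      | nil => simp
      | cons p l ih =>
        simp only [List.map_cons, List.sum_cons, Function.comp_apply, map_smul, smul_add,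
          smul_mul_assoc] at ih ⊢
        rw [ih]

lemma JJ_mul_left (a : FN F) {f : FN F} (hf : f ∈ JJ F) : a * f ∈ JJ F := by
  obtain ⟨l, hl1, hl2⟩ := hf
  refine ⟨l.map (fun p => (a * p.1, p.2)), ?_, ?_⟩
  · intro p hp
    rw [List.mem_map] at hp
    obtain ⟨q, hq, rfl⟩ := hp
    refine ⟨?_, (hl1 q hq).2⟩
    intro A _ _ _ _ hA φ
    simp only [map_mul]
    exact IsAlt.InU.mul_left hA ((hl1 q hq).1 A hA φ) _
  · intro A _ _ _ _ hA φ
    rw [map_mul, hl2 A hA φ, List.map_map]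
    clear hl2
    induction l with
    | nil => simp
    | cons p l ih =>
      have h := IsAlt.Nuc.right hA ((hl1 p (by simp)).2 A hA φ).nuc
        (FreeNonUnitalNonAssocAlgebra.lift F φ a) (FreeNonUnitalNonAssocAlgebra.lift F φ p.1)
      rw [associator, sub_eq_zero] at h
      have ih' := ih (fun q hq => hl1 q (List.mem_cons_of_mem _ hq))
      simp only [List.map_cons, List.sum_cons, Function.comp_apply, map_mul, mul_add] at ih' ⊢
      rw [ih', h]

lemma JJ_mul_right (a : FN F) {f : FN F} (hf : f ∈ JJ F) : f * a ∈ JJ F := by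
  obtain ⟨l, hl1, hl2⟩ := hf
  refine ⟨l.map (fun p => (p.1, p.2 * a)), ?_, ?_⟩
  · intro p hp
    rw [List.mem_map] at hp
    obtain ⟨q, hq, rfl⟩ := hp
    refine ⟨(hl1 q hq).1, ?_⟩
    intro A _ _ _ _ hA φ
    simp only [map_mul]
    exact IsAlt.InU.mul_right ((hl1 q hq).2 A hA φ) _
  · intro A _ _ _ _ hA φ
    rw [map_mul, hl2 A hA φ, List.map_map]
    clear hl2
    induction l with
    | nil => simp
    | cons p l ih =>
      have h := ((hl1 p (by simp)).1 A hA φ).nuc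
        (FreeNonUnitalNonAssocAlgebra.lift F φ p.2) (FreeNonUnitalNonAssocAlgebra.lift F φ a)
      rw [associator, sub_eq_zero] at h
      have ih' := ih (fun q hq => hl1 q (List.mem_cons_of_mem _ hq))
      simp only [List.map_cons, List.sum_cons, Function.comp_apply, map_mul, add_mul] at ih' ⊢
      rw [ih', h]

/-- polynomials vanishing in all alternative algebras lie in the ideal -/
lemma JJ_of_alt {f : FN F}
    (h : ∀ (A : Type u) [NonUnitalNonAssocRing A] [Module F A] [IsScalarTower F A A]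
      [SMulCommClass F A A], IsAlt A → ∀ φ : ℕ → A,
        FreeNonUnitalNonAssocAlgebra.lift F φ f = 0) : f ∈ JJ F := by
  refine ⟨[], ?_, ?_⟩
  · intro p hp; simp at hp
  · intro A _ _ _ _ hA φ; simp [h A hA φ]

/-- The quotient algebra -/
def QQ : Type u := FN F ⧸ JJ F

noncomputable instance : AddCommGroup (QQ F) := inferInstanceAs (AddCommGroup (FN F ⧸ JJ F))

/-- the projection onto the quotient -/
noncomputable def mkQ (x : FN F) : QQ F := (Submodule.Quotient.mk x : FN F ⧸ JJ F)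

lemma mkQ_surj (x : QQ F) : ∃ y, mkQ F y = x := Submodule.Quotient.mk_surjective _ x

lemma mkQ_eq {x y : FN F} : mkQ F x = mkQ F y ↔ x - y ∈ JJ F := Submodule.Quotient.eq (JJ F)

lemma mkQ_add (x y : FN F) : mkQ F (x + y) = mkQ F x + mkQ F y := rfl

lemma mkQ_zero : mkQ F 0 = 0 := rfl

/-- multiplication on the quotient -/
noncomputable def mulQ (x y : QQ F) : QQ F :=
  mkQ F (Classical.choose (mkQ_surj F x) * Classical.choose (mkQ_surj F y))

lemma mulQ_mk (x y : FN F) : mulQ F (mkQ F x) (mkQ F y) = mkQ F (x * y) := by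
  unfold mulQ
  rw [mkQ_eq]
  have hx := (mkQ_eq F).1 (Classical.choose_spec (mkQ_surj F (mkQ F x)))
  have hy := (mkQ_eq F).1 (Classical.choose_spec (mkQ_surj F (mkQ F y)))
  set x' := Classical.choose (mkQ_surj F (mkQ F x))
  set y' := Classical.choose (mkQ_surj F (mkQ F y))
  have : x' * y' - x * y = (x' - x) * y' + x * (y' - y) := by
    rw [sub_mul, mul_sub]; abel
  rw [this]
  exact Submodule.add_mem _ (JJ_mul_right F _ hx) (JJ_mul_left F _ hy)

noncomputable instance : NonUnitalNonAssocRing (QQ F) :=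
  { (inferInstance : AddCommGroup (QQ F)) with
    mul := mulQ F
    left_distrib := by
      intro a b c
      obtain ⟨a, rfl⟩ := mkQ_surj F a
      obtain ⟨b, rfl⟩ := mkQ_surj F b
      obtain ⟨c, rfl⟩ := mkQ_surj F c
      change mulQ F (mkQ F a) (mkQ F b + mkQ F c) =
        mulQ F (mkQ F a) (mkQ F b) + mulQ F (mkQ F a) (mkQ F c)
      rw [← mkQ_add, mulQ_mk, mulQ_mk, mulQ_mk, ← mkQ_add, mul_add]
    right_distrib := by
      intro a b c
      obtain ⟨a, rfl⟩ := mkQ_surj F a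
      obtain ⟨b, rfl⟩ := mkQ_surj F b
      obtain ⟨c, rfl⟩ := mkQ_surj F c
      change mulQ F (mkQ F a + mkQ F b) (mkQ F c) =
        mulQ F (mkQ F a) (mkQ F c) + mulQ F (mkQ F b) (mkQ F c)
      rw [← mkQ_add, mulQ_mk, mulQ_mk, mulQ_mk, ← mkQ_add, add_mul]
    zero_mul := by
      intro a
      obtain ⟨a, rfl⟩ := mkQ_surj F a
      change mulQ F 0 (mkQ F a) = 0
      rw [← mkQ_zero, mulQ_mk, zero_mul]
    mul_zero := by
      intro a
      obtain ⟨a, rfl⟩ := mkQ_surj F a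
      change mulQ F (mkQ F a) 0 = 0
      rw [← mkQ_zero, mulQ_mk, mul_zero] }

noncomputable instance : Module F (QQ F) := inferInstanceAs (Module F (FN F ⧸ JJ F))

lemma mkQ_mul (x y : FN F) : mkQ F (x * y) = mkQ F x * mkQ F y := (mulQ_mk F x y).symm

lemma mkQ_smul (c : F) (x : FN F) : mkQ F (c • x) = c • mkQ F x := rfl

instance : IsScalarTower F (QQ F) (QQ F) := by
  constructor
  intro c x y
  obtain ⟨x, rfl⟩ := mkQ_surj F x
  obtain ⟨y, rfl⟩ := mkQ_surj F y
  simp only [smul_eq_mul]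
  rw [← mkQ_smul, ← mkQ_mul, ← mkQ_mul, ← mkQ_smul, smul_mul_assoc]

instance : SMulCommClass F (QQ F) (QQ F) := by
  constructor
  intro c x y
  obtain ⟨x, rfl⟩ := mkQ_surj F x
  obtain ⟨y, rfl⟩ := mkQ_surj F y
  simp only [smul_eq_mul]
  rw [← mkQ_smul, ← mkQ_mul, ← mkQ_mul, ← mkQ_smul, mul_smul_comm]

/-- the projection as a homomorphism -/
noncomputable def homQ : FN F →ₙₐ[F] QQ F where
  toFun := mkQ F
  map_smul' _ _ := rfl
  map_zero' := rfl
  map_add' _ _ := rfl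
  map_mul' := mkQ_mul F

lemma lift_lift {A : Type u} [NonUnitalNonAssocRing A] [Module F A] [IsScalarTower F A A]
    [SMulCommClass F A A] (ψ : FN F →ₙₐ[F] A) (φ : ℕ → FN F) (f : FN F) :
    ψ (FreeNonUnitalNonAssocAlgebra.lift F φ f)
      = FreeNonUnitalNonAssocAlgebra.lift F (fun i => ψ (φ i)) f := by
  have h : ψ.comp (FreeNonUnitalNonAssocAlgebra.lift F φ)
      = FreeNonUnitalNonAssocAlgebra.lift F (fun i => ψ (φ i)) := by
    apply FreeNonUnitalNonAssocAlgebra.hom_ext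
    intro i
    simp
  exact DFunLike.congr_fun h f

lemma lift_of (f : FN F) :
    FreeNonUnitalNonAssocAlgebra.lift F (FreeNonUnitalNonAssocAlgebra.of F) f = f := by
  have h : FreeNonUnitalNonAssocAlgebra.lift F (FreeNonUnitalNonAssocAlgebra.of F)
      = NonUnitalAlgHom.id F (FN F) := by
    apply FreeNonUnitalNonAssocAlgebra.hom_ext
    intro i
    simp
  exact DFunLike.congr_fun h f

lemma QQ_alt (x y : QQ F) : (x * x) * y = x * (x * y) ∧ (y * x) * x = y * (x * x) := by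
  obtain ⟨x, rfl⟩ := mkQ_surj F x
  obtain ⟨y, rfl⟩ := mkQ_surj F y
  constructor
  · rw [← mkQ_mul, ← mkQ_mul, ← mkQ_mul, ← mkQ_mul, mkQ_eq]
    apply JJ_of_alt
    intro A _ _ _ _ hA φ
    simp only [map_sub, map_mul, hA.la, sub_self]
  · rw [← mkQ_mul, ← mkQ_mul, ← mkQ_mul, ← mkQ_mul, mkQ_eq]
    apply JJ_of_alt
    intro A _ _ _ _ hA φ
    simp only [map_sub, map_mul, hA.ra, sub_self]

/-- the identity `u^2` in the free nonassociative algebra -/
noncomputable def idU : FN F :=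
  uel (FreeNonUnitalNonAssocAlgebra.of F 0) (FreeNonUnitalNonAssocAlgebra.of F 1)
    (FreeNonUnitalNonAssocAlgebra.of F 2) *
  uel (FreeNonUnitalNonAssocAlgebra.of F 0) (FreeNonUnitalNonAssocAlgebra.of F 1)
    (FreeNonUnitalNonAssocAlgebra.of F 2)

/-- the associator in the free nonassociative algebra -/
noncomputable def idA : FN F :=
  associator (FreeNonUnitalNonAssocAlgebra.of F 0) (FreeNonUnitalNonAssocAlgebra.of F 1)
    (FreeNonUnitalNonAssocAlgebra.of F 2)

omit [CharZero F] in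
lemma map_uel {A B : Type u} [NonUnitalNonAssocRing A] [Module F A]
    [NonUnitalNonAssocRing B] [Module F B] (ψ : A →ₙₐ[F] B) (x y z : A) :
    ψ (uel x y z) = uel (ψ x) (ψ y) (ψ z) := by
  simp only [uel, nel, cm, map_mul, map_sub]

lemma lift_idU {A : Type u} [NonUnitalNonAssocRing A] [Module F A] [IsScalarTower F A A]
    [SMulCommClass F A A] (φ : ℕ → A) :
    FreeNonUnitalNonAssocAlgebra.lift F φ (idU F)
      = uel (φ 0) (φ 1) (φ 2) * uel (φ 0) (φ 1) (φ 2) := by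
  rw [idU, map_mul, map_uel]
  simp

lemma lift_idA {A : Type u} [NonUnitalNonAssocRing A] [Module F A] [IsScalarTower F A A]
    [SMulCommClass F A A] (φ : ℕ → A) :
    FreeNonUnitalNonAssocAlgebra.lift F φ (idA F) = associator (φ 0) (φ 1) (φ 2) := by
  rw [idA, associator, associator]
  simp only [map_sub, map_mul]
  simp

lemma QQ_idU (φ : ℕ → QQ F) : FreeNonUnitalNonAssocAlgebra.lift F φ (idU F) = 0 := by
  choose φ' hφ' using fun i => mkQ_surj F (φ i)
  have h1 : φ = fun i => homQ F (φ' i) := by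
    funext i; exact (hφ' i).symm
  rw [h1, ← lift_lift F (homQ F) φ']
  change mkQ F _ = 0
  rw [← mkQ_zero, mkQ_eq, sub_zero, lift_idU]
  refine ⟨[(uel (φ' 0) (φ' 1) (φ' 2), uel (φ' 0) (φ' 1) (φ' 2))], ?_, ?_⟩
  · intro p hp
    rw [List.mem_singleton] at hp
    subst hp
    have : UU F (uel (φ' 0) (φ' 1) (φ' 2)) := by
      intro A _ _ _ _ hA φ
      rw [map_uel]
      exact IsAlt.InU.uel_mem hA _ _ _
    exact ⟨this, this⟩
  · intro A _ _ _ _ _ φ
    simp

/-- The key step: an identity of the quotient algebra and of the free associative algebra is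
an identity of all alternative algebras. -/
theorem key (f : FN F) (h1 : proj F f = 0) (h2 : f ∈ JJ F)
    {A : Type u} [NonUnitalNonAssocRing A] [Module F A] [IsScalarTower F A A]
    [SMulCommClass F A A] (hA : IsAlt A) (φ : ℕ → A) :
    FreeNonUnitalNonAssocAlgebra.lift F φ f = 0 := by
  obtain ⟨l, hl1, hl2⟩ := h2
  have hR : IsAlt (FR F) := by
    apply isAlt_of F
    intro x y
    simp only [mul_assoc, and_self]
  have e1 := hl2 (FR F) hR (letter F)
  change proj F f = (l.map (fun p => proj F p.1 * proj F p.2)).sum at e1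
  rw [h1] at e1
  rw [hl2 A hA φ]
  have c1 : ∀ {B : Type u} [AddCommMonoid B] (g : FN F × FN F → B),
      (l.map g).sum = ∑ i : Fin l.length, g (l.get i) := by
    intro B _ g
    rw [← List.sum_ofFn]
    congr 1
    apply List.ext_get <;> simp
  rw [c1] at e1 ⊢
  exact flat hA φ _ Finset.univ (fun i => (l.get i).1) (fun i => (l.get i).2)
    (fun i _ => ⟨(hl1 _ (List.get_mem l i)).1 A hA φ, (hl1 _ (List.get_mem l i)).2 A hA φ⟩)
    e1.symm le_rfl

end quot

end Pool.Agent.H16.AltU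

namespace Pool.Agent.H16.AltU

section examples

variable (F : Type u) [Field F] [CharZero F]

open Matrix

/-- the 7-dimensional alternative algebra `V ⊕ Λ²V ⊕ Λ³V`, `V = F³`, with the product
`(a, b, c)(a', b', c') = (0, a ∧ a', b ∧ a' - a ∧ b')`. -/
def Ex7 : Type u := (Fin 3 → F) × (Fin 3 → F) × F

noncomputable instance : AddCommGroup (Ex7 F) :=
  inferInstanceAs (AddCommGroup ((Fin 3 → F) × (Fin 3 → F) × F))

/-- multiplication of `Ex7` -/
def mul7 (x y : Ex7 F) : Ex7 F :=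
  (0, crossProduct x.1 y.1, x.2.1 ⬝ᵥ y.1 - x.1 ⬝ᵥ y.2.1)

noncomputable instance : NonUnitalNonAssocRing (Ex7 F) :=
  { (inferInstance : AddCommGroup (Ex7 F)) with
    mul := mul7 F
    left_distrib := by
      intro a b c
      change mul7 F a (b + c) = mul7 F a b + mul7 F a c
      obtain ⟨a1, a2, a3⟩ := a
      obtain ⟨b1, b2, b3⟩ := b
      obtain ⟨c1, c2, c3⟩ := c
      change ((0 : Fin 3 → F), crossProduct a1 (b1 + c1), a2 ⬝ᵥ (b1 + c1) - a1 ⬝ᵥ (b2 + c2))
        = ((0 : Fin 3 → F) + 0, crossProduct a1 b1 + crossProduct a1 c1,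
          (a2 ⬝ᵥ b1 - a1 ⬝ᵥ b2) + (a2 ⬝ᵥ c1 - a1 ⬝ᵥ c2))
      rw [map_add, dotProduct_add, dotProduct_add, add_zero]
      congr 2
      ring
    right_distrib := by
      intro a b c
      change mul7 F (a + b) c = mul7 F a c + mul7 F b c
      obtain ⟨a1, a2, a3⟩ := a
      obtain ⟨b1, b2, b3⟩ := b
      obtain ⟨c1, c2, c3⟩ := c
      change ((0 : Fin 3 → F), crossProduct (a1 + b1) c1, (a2 + b2) ⬝ᵥ c1 - (a1 + b1) ⬝ᵥ c2)
        = ((0 : Fin 3 → F) + 0, crossProduct a1 c1 + crossProduct b1 c1,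
          (a2 ⬝ᵥ c1 - a1 ⬝ᵥ c2) + (b2 ⬝ᵥ c1 - b1 ⬝ᵥ c2))
      rw [map_add, LinearMap.add_apply, add_dotProduct, add_dotProduct, add_zero]
      congr 2
      ring
    zero_mul := by
      intro a
      obtain ⟨a1, a2, a3⟩ := a
      change ((0 : Fin 3 → F), crossProduct 0 a1, 0 ⬝ᵥ a1 - 0 ⬝ᵥ a2)
        = ((0 : Fin 3 → F), (0 : Fin 3 → F), (0 : F))
      simp
    mul_zero := by
      intro a
      obtain ⟨a1, a2, a3⟩ := a
      change ((0 : Fin 3 → F), crossProduct a1 0, a2 ⬝ᵥ 0 - a1 ⬝ᵥ 0)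
        = ((0 : Fin 3 → F), (0 : Fin 3 → F), (0 : F))
      simp }

noncomputable instance : Module F (Ex7 F) :=
  inferInstanceAs (Module F ((Fin 3 → F) × (Fin 3 → F) × F))

/-- constructor of `Ex7` -/
def mk7 (a b : Fin 3 → F) (c : F) : Ex7 F := (a, b, c)

lemma mk7_surj (x : Ex7 F) : ∃ a b c, mk7 F a b c = x := ⟨x.1, x.2.1, x.2.2, rfl⟩

lemma mk7_inj {a b a' b' : Fin 3 → F} {c c' : F} (h : mk7 F a b c = mk7 F a' b' c') :
    c = c' := congrArg (fun z : Ex7 F => z.2.2) h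

lemma mul7_def (a1 a2 b1 b2 : Fin 3 → F) (a3 b3 : F) :
    mk7 F a1 a2 a3 * mk7 F b1 b2 b3
      = mk7 F 0 (crossProduct a1 b1) (a2 ⬝ᵥ b1 - a1 ⬝ᵥ b2) := rfl

instance : IsScalarTower F (Ex7 F) (Ex7 F) := by
  constructor
  intro c x y
  obtain ⟨a1, a2, a3⟩ := x
  obtain ⟨b1, b2, b3⟩ := y
  change ((0 : Fin 3 → F), crossProduct (c • a1) b1, (c • a2) ⬝ᵥ b1 - (c • a1) ⬝ᵥ b2)
    = (c • (0 : Fin 3 → F), c • crossProduct a1 b1, c • (a2 ⬝ᵥ b1 - a1 ⬝ᵥ b2))
  rw [map_smul, LinearMap.smul_apply, smul_dotProduct, smul_dotProduct, smul_zero, smul_sub]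

instance : SMulCommClass F (Ex7 F) (Ex7 F) := by
  constructor
  intro c x y
  obtain ⟨a1, a2, a3⟩ := x
  obtain ⟨b1, b2, b3⟩ := y
  change (c • (0 : Fin 3 → F), c • crossProduct a1 b1, c • (a2 ⬝ᵥ b1 - a1 ⬝ᵥ b2))
    = ((0 : Fin 3 → F), crossProduct a1 (c • b1), a2 ⬝ᵥ (c • b1) - a1 ⬝ᵥ (c • b2))
  rw [map_smul, dotProduct_smul, dotProduct_smul, smul_zero, smul_sub]

lemma ex7_alt (x y : Ex7 F) : (x * x) * y = x * (x * y) ∧ (y * x) * x = y * (x * x) := by
  obtain ⟨a1, a2, a3, rfl⟩ := mk7_surj F x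
  obtain ⟨b1, b2, b3, rfl⟩ := mk7_surj F y
  simp only [mul7_def, cross_self]
  constructor
  · have h1 : a1 ⬝ᵥ (crossProduct a1 b1) = 0 := dot_self_cross a1 b1
    simp [h1]
  · have h1 : (crossProduct b1 a1) ⬝ᵥ a1 = 0 := by
      rw [dotProduct_comm]; exact dot_cross_self b1 a1
    simp [h1]

lemma ex7_assoc : ∃ φ : ℕ → Ex7 F, FreeNonUnitalNonAssocAlgebra.lift F φ (idA F) ≠ 0 := by
  refine ⟨fun i => if i = 0 then mk7 F ![1, 0, 0] 0 0 else
    if i = 1 then mk7 F ![0, 1, 0] 0 0 else mk7 F ![0, 0, 1] 0 0, ?_⟩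
  rw [lift_idA]
  intro h
  rw [associator, sub_eq_zero] at h
  have h' : (mk7 F ![1, 0, 0] 0 0 * mk7 F ![0, 1, 0] 0 0) * mk7 F ![0, 0, 1] 0 0
    = mk7 F ![1, 0, 0] 0 0 * (mk7 F ![0, 1, 0] 0 0 * mk7 F ![0, 0, 1] 0 0) := h
  rw [mul7_def, mul7_def, mul7_def, mul7_def] at h'
  have h2 := mk7_inj F h'
  simp [cross_apply] at h2
  have h3 : (1 : F) + 1 = 0 := by
    nth_rewrite 1 [h2]; ring
  norm_num at h3

/-- integer matrices witnessing that `u^2` is not an identity of associative algebras -/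
def mX : Matrix (Fin 3) (Fin 3) ℤ := !![0, -1, 0; 0, 0, -1; 0, 1, 0]
/-- second matrix -/
def mY : Matrix (Fin 3) (Fin 3) ℤ := !![0, 0, 0; -1, 0, 0; 1, -1, 0]
/-- third matrix -/
def mZ : Matrix (Fin 3) (Fin 3) ℤ := !![0, 0, 0; 1, 0, 0; 0, 0, 0]

lemma cm_XY : cm mX mY = !![1, 0, 0; -1, 0, 0; -1, 1, -1] := by decide

lemma nel_XY : nel mX mY = !![2, 1, -1; 2, 3, 1; -2, 1, 3] := by
  unfold nel
  rw [cm_XY]
  have h1 : (!![1, 0, 0; -1, 0, 0; -1, 1, -1] : Matrix (Fin 3) (Fin 3) ℤ) *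
      !![1, 0, 0; -1, 0, 0; -1, 1, -1] = !![1, 0, 0; -1, 0, 0; -1, -1, 1] := by decide
  rw [h1]
  have h2 : cm mX !![1, 0, 0; -1, 0, 0; -1, -1, 1] = !![1, 1, 0; 1, 0, -1; -1, -2, -1] := by decide
  rw [h2]
  decide

lemma uel_XYZ : uel mX mY mZ = !![1, 0, 0; 1, 1, -1; 1, 0, 0] := by
  unfold uel
  rw [nel_XY]
  have h2 : cm !![2, 1, -1; 2, 3, 1; -2, 1, 3] mZ = !![1, 0, 0; 1, -1, 1; 1, 0, 0] := by decide
  rw [h2]
  decide

lemma matrix_ex : ∃ φ : ℕ → Matrix (Fin 3) (Fin 3) F,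
    FreeNonUnitalNonAssocAlgebra.lift F φ (idU F) ≠ 0 := by
  set c : Matrix (Fin 3) (Fin 3) ℤ →+* Matrix (Fin 3) (Fin 3) F :=
    (Int.castRingHom F).mapMatrix with hc
  refine ⟨fun i => if i = 0 then c mX else if i = 1 then c mY else c mZ, ?_⟩
  rw [lift_idU]
  intro h
  have e : uel (c mX) (c mY) (c mZ) = c (uel mX mY mZ) := by
    simp only [uel, nel, cm, map_mul, map_sub]
  have h' : uel (c mX) (c mY) (c mZ) * uel (c mX) (c mY) (c mZ) = 0 := h
  rw [e, uel_XYZ, ← map_mul] at h'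
  have h1 : (!![1, 0, 0; 1, 1, -1; 1, 0, 0] : Matrix (Fin 3) (Fin 3) ℤ) *
      !![1, 0, 0; 1, 1, -1; 1, 0, 0] = !![1, 0, 0; 1, 1, -1; 1, 0, 0] := by decide
  rw [h1] at h'
  have h2 := congrFun (congrFun h' 0) 0
  simp [hc] at h2

end examples

end Pool.Agent.H16.AltU
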